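import Pool.Agent.Helper5.FS.Stmts

/-! # Row GLO: from local to global -/

set_option autoImplicit false

namespace Pool.Agent.Helper5.FS

open Finset

/-- from local to global -/
theorem st_GLO (h1 : ST_MG2) (h2 : ST_LOC) : ST_GLO := by
  classical
  intro n m q s E hq h3 h4 hQ
  obtain ⟨_, hm2, hm3, hm4⟩ := h1
  have key : ∀ X : Finset (Finset (Finset (Fin n))), (∀ P ∈ X, Pt P ∧ Ind E P ∧ P.card = m) →
      ∀ S : Finset (Finset (Finset (Fin n))), (∀ R, Ind E R →
        (∃ P ∈ X, ∃ A ∈ P, ∃ B ∈ P, A ≠ B ∧ R = mg P A B) → R ∈ S) → X.card ≤ S.card := by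
    intro X
    induction X using Finset.strongInduction with
    | H X ih =>
      intro hX S hS
      rcases X.eq_empty_or_nonempty with hX0 | ⟨P0, hP0⟩
      · rw [hX0, card_empty]
        exact Nat.zero_le _
      obtain ⟨Q, hQ1, hQ2, hQ3, hQ4⟩ := hQ P0 (hX P0 hP0).1 (hX P0 hP0).2.1 (hX P0 hP0).2.2
      have hsplit := card_filter_add_card_filter_not (s := X) (fun P => Rf P Q)
      have hsplit2 := card_filter_add_card_filter_not (s := S) (fun P => Rf P Q)
      have hY : (X.filter (fun P => ¬ Rf P Q)).card ≤ (S.filter (fun P => ¬ Rf P Q)).card := by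
        apply ih (X.filter (fun P => ¬ Rf P Q))
        · rw [filter_ssubset]
          exact ⟨P0, hP0, fun h => h hQ3⟩
        · intro P hP
          exact hX P (mem_filter.mp hP).1
        · rintro R hR ⟨P, hP, A, hA, B, hB, hAB, hRe⟩
          obtain ⟨hPX, hPQ⟩ := mem_filter.mp hP
          rw [mem_filter]
          refine ⟨hS R hR ⟨P, hPX, A, hA, B, hB, hAB, hRe⟩, fun hRQ => hPQ ?_⟩
          apply hm3 n P R Q _ hRQ
          rw [hRe]
          exact hm2 n P A B
      have hZ : (X.filter (fun P => Rf P Q)).card ≤ (S.filter (fun P => Rf P Q)).card := by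
        refine (h2 n m q s Q (X.filter (fun P => Rf P Q)) hQ1 hQ4 hq h3 h4 ?_).trans ?_
        · intro P hP
          obtain ⟨hPX, hPQ⟩ := mem_filter.mp hP
          exact ⟨(hX P hPX).1, (hX P hPX).2.2, hPQ⟩
        · apply card_le_card
          intro R hR
          rw [mem_filter] at hR ⊢
          obtain ⟨_, hRQ, P, hP, A, hA, B, hB, hAB, hRe⟩ := hR
          exact ⟨hS R (hm4 n E R Q hRQ hQ2)
            ⟨P, (mem_filter.mp hP).1, A, hA, B, hB, hAB, hRe⟩, hRQ⟩
      omega
  intro X hX
  apply key X hX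
  intro R hR hex
  rw [mem_filter]
  exact ⟨mem_univ _, hR, hex⟩

end Pool.Agent.Helper5.FS
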