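import Pool.Agent.Helper5.FS.Stmts2

/-!
# The local inequality (row LO2 of the sheet FS, general form)
-/

set_option autoImplicit false

open Finset

namespace Pool.Agent.Helper99.FS

open Pool.Agent.Helper5.FS

/-- subsets of the small blocks -/
def lo2_U {n : ℕ} (s : ℕ) (R : Finset (Finset (Fin n))) : Finset (Finset (Fin n)) :=
  (univ : Finset (Finset (Fin n))).filter (fun A => ∃ D ∈ R, A ⊆ D ∧ D.card ≤ 2 * s)

open scoped Classical in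
/-- pairs of small blocks inside one block of `Q` -/
noncomputable def lo2_T {n : ℕ} (s : ℕ) (Q P : Finset (Finset (Fin n))) :
    Finset (Finset (Fin n) × Finset (Fin n)) :=
  (univ : Finset (Finset (Fin n) × Finset (Fin n))).filter
    (fun p => p.1 ∈ P ∧ p.2 ∈ P ∧ p.1 ≠ p.2 ∧ p.1.card ≤ s ∧ p.2.card ≤ s ∧
      ∃ C ∈ Q, p.1 ⊆ C ∧ p.2 ⊆ C)

theorem lo2_memT {n s : ℕ} {Q P : Finset (Finset (Fin n))} {p : Finset (Fin n) × Finset (Fin n)} :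
    p ∈ lo2_T s Q P ↔ p.1 ∈ P ∧ p.2 ∈ P ∧ p.1 ≠ p.2 ∧ p.1.card ≤ s ∧ p.2.card ≤ s ∧
      ∃ C ∈ Q, p.1 ⊆ C ∧ p.2 ⊆ C := by
  unfold lo2_T
  simp only [mem_filter, mem_univ, true_and]

open scoped Classical in
/-- the local inequality (general form) -/
theorem st_LO2 (h1 : ST_MG1) (h2 : ST_MG2) (h3 : ST_MG3) (h4 : ST_PR2) (h5 : ST_FIB) :
    ST_LO2 := by
  intro n m q s k Q Z hQ hq1 hq2 hm1 hkm hn hm hZ
  obtain ⟨hA, -, -, -⟩ := h2
  have hm0 : 0 < m := hm1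
  refine Nat.le_of_mul_le_mul_right (c := m * 2 ^ (2 * s)) ?_ (by positivity)
  generalize hN : ((univ : Finset (Finset (Finset (Fin n)))).filter
    (fun R => Rf R Q ∧ ∃ P ∈ Z, ∃ A ∈ P, ∃ B ∈ P, A ≠ B ∧ R = mg P A B)) = N
  have hmem : ∀ R, R ∈ N ↔ (Rf R Q ∧ ∃ P ∈ Z, ∃ A ∈ P, ∃ B ∈ P, A ≠ B ∧ R = mg P A B) := by
    intro R
    rw [← hN]
    simp only [mem_filter, mem_univ, true_and]
  have hT : ∀ P ∈ Z, m * 2 ^ (2 * s) ≤ (lo2_T s Q P).card := fun P hP =>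
    h4 n m q s k P Q (hZ P hP).1 hQ (hZ P hP).2.1 hq1 (hZ P hP).2.2 hq2 hkm hn hm
  have hU : ∀ R ∈ N, (lo2_U s R).card ≤ m * 2 ^ (2 * s) := by
    intro R hR
    obtain ⟨-, P, hP, A, hA', B, hB', hAB, rfl⟩ := (hmem R).1 hR
    have h6 := (h1 n P A B (hZ P hP).1 hA' hB' hAB).2
    rw [(hZ P hP).2.1] at h6
    exact h5 n m s _ (by omega)
  have key : (Z.sigma (lo2_T s Q)).card ≤ (N.sigma (lo2_U s)).card := by
    refine card_le_card_of_injOn (fun x => ⟨mg x.1 x.2.1 x.2.2, x.2.1⟩) ?_ ?_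
    · rintro ⟨P, A, B⟩ hx
      rw [mem_coe, mem_sigma] at hx
      obtain ⟨hP, hp⟩ := hx
      obtain ⟨hA', hB', hAB, hcA, hcB, C, hC, hAC, hBC⟩ := lo2_memT.1 hp
      rw [mem_coe, mem_sigma]
      refine ⟨(hmem _).2 ⟨hA n P Q A B C (hZ P hP).2.2 hC hAC hBC, P, hP, A, hA', B, hB', hAB,
        rfl⟩, ?_⟩
      unfold lo2_U
      rw [mem_filter]
      refine ⟨mem_univ _, A ∪ B, mem_insert_self _ _, subset_union_left, ?_⟩
      have := card_union_le A B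
      simp only at hcA hcB
      omega
    · rintro ⟨P, A, B⟩ hx ⟨P', A', B'⟩ hx' he
      rw [mem_coe, mem_sigma] at hx hx'
      obtain ⟨hP, hp⟩ := hx
      obtain ⟨hP', hp'⟩ := hx'
      obtain ⟨a1, a2, a3, -, -, -⟩ := lo2_memT.1 hp
      obtain ⟨b1, b2, b3, -, -, -⟩ := lo2_memT.1 hp'
      simp only [Sigma.mk.injEq, heq_eq_eq] at he
      obtain ⟨e1, e2⟩ := he
      simp only at hP hP' a1 a2 a3 b1 b2 b3
      subst e2
      obtain ⟨e3, e4⟩ := h3 n P P' A B B' (hZ P hP).1 (hZ P' hP').1 a1 a2 a3 b1 b2 b3 e1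
      subst e3
      subst e4
      rfl
  rw [card_sigma, card_sigma] at key
  calc Z.card * (m * 2 ^ (2 * s)) = ∑ _P ∈ Z, m * 2 ^ (2 * s) := by
        rw [sum_const, smul_eq_mul]
    _ ≤ ∑ P ∈ Z, (lo2_T s Q P).card := sum_le_sum hT
    _ ≤ ∑ R ∈ N, (lo2_U s R).card := key
    _ ≤ ∑ _R ∈ N, m * 2 ^ (2 * s) := sum_le_sum hU
    _ = N.card * (m * 2 ^ (2 * s)) := by rw [sum_const, smul_eq_mul]

end Pool.Agent.Helper99.FS
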