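import Pool.Agent.Helper97.FS.Stmts

set_option autoImplicit false

/-!
# FS, module E1: Bochner's theorem on the torus
-/

namespace Pool.Agent.Helper97.FS

open Finset MeasureTheory Filter Topology UnitAddTorus
open scoped ComplexConjugate

/-- integrals of characters of the circle -/
theorem e1_fourier_int (m : ℤ) :
    ∫ s : AddCircle (1 : ℝ), fourier m s ∂AddCircle.haarAddCircle = if m = 0 then 1 else 0 := by
  split_ifs with h
  · subst h
    simp only [fourier_zero]
    simp
  · exact integral_eq_zero_of_add_right_eq_neg (μ := AddCircle.haarAddCircle)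
      (fourier_add_half_inv_index h (Fact.out : (0 : ℝ) < 1))

/-- integrals of characters of the torus -/
theorem e1_int {n : ℕ} (m : Fin n → ℤ) :
    ∫ x, mFourier m x ∂(tor n) = if m = 0 then 1 else 0 := by
  have h1 : ∫ x, mFourier m x ∂(tor n) =
      ∏ i, ∫ s : AddCircle (1 : ℝ), fourier (m i) s ∂AddCircle.haarAddCircle := by
    unfold tor
    exact integral_fintype_prod_eq_prod (𝕜 := ℂ)
      (fun i (s : AddCircle (1 : ℝ)) => (fourier (m i) s : ℂ))
  rw [h1]
  simp only [e1_fourier_int]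
  split_ifs with h
  · subst h; simp
  · obtain ⟨i, hi⟩ := Function.ne_iff.1 h
    exact Finset.prod_eq_zero (mem_univ i) (by simpa using hi)

/-- the box -/
noncomputable def e1_box (n N : ℕ) : Finset (Fin n → ℤ) := Fintype.piFinset fun _ => Finset.Ico (0 : ℤ) N

theorem e1_card (n N : ℕ) : ((e1_box n N).card : ℝ) = (N : ℝ) ^ n := by
  unfold e1_box
  rw [Fintype.card_piFinset]
  simp

/-- Fejer density -/
noncomputable def e1_C {n : ℕ} (b : (Fin n → ℤ) → ℂ) (N : ℕ) (x : UnitAddTorus (Fin n)) : ℂ :=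
  (∑ m ∈ e1_box n N, ∑ m' ∈ e1_box n N, b (m' - m) * mFourier (m - m') x) / (N : ℂ) ^ n

theorem e1_C_re {n : ℕ} {b : (Fin n → ℤ) → ℂ} (hb : ∀ m, b (-m) = conj (b m)) (N : ℕ)
    (x : UnitAddTorus (Fin n)) : (((e1_C b N x).re : ℝ) : ℂ) = e1_C b N x := by
  rw [← Complex.conj_eq_iff_re]
  unfold e1_C
  rw [map_div₀, map_pow, Complex.conj_natCast, map_sum]
  congr 1
  simp only [map_sum]
  rw [sum_comm]
  refine sum_congr rfl fun m _ => sum_congr rfl fun m' _ => ?_
  rw [map_mul, ← hb, ← mFourier_neg, neg_sub, neg_sub]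

theorem e1_C_nonneg {n : ℕ} {b : (Fin n → ℤ) → ℂ}
    (hp : ∀ (S : Finset (Fin n → ℤ)) (c : (Fin n → ℤ) → ℂ),
      0 ≤ (∑ m ∈ S, ∑ m' ∈ S, c m * conj (c m') * b (m' - m)).re) (N : ℕ)
    (x : UnitAddTorus (Fin n)) : 0 ≤ (e1_C b N x).re := by
  have h1 := hp (e1_box n N) (fun m => mFourier m x)
  have h2 : e1_C b N x = (((N : ℝ) ^ n : ℝ) : ℂ)⁻¹ *
      ∑ m ∈ e1_box n N, ∑ m' ∈ e1_box n N, mFourier m x * conj (mFourier m' x) * b (m' - m) := by
    unfold e1_C
    rw [div_eq_mul_inv, mul_comm]
    push_cast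
    congr 1
    refine sum_congr rfl fun m _ => sum_congr rfl fun m' _ => ?_
    rw [← mFourier_neg, ← mFourier_add, ← sub_eq_add_neg, mul_comm]
  rw [h2, ← Complex.ofReal_inv, Complex.re_ofReal_mul]
  exact mul_nonneg (by positivity) h1

theorem e1_C_cont {n : ℕ} (b : (Fin n → ℤ) → ℂ) (N : ℕ) : Continuous (e1_C b N) := by
  unfold e1_C
  refine Continuous.div_const ?_ _
  refine continuous_finsetSum _ fun j _ => continuous_finsetSum _ fun l _ => ?_
  exact continuous_const.mul (mFourier (j - l)).continuous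

/-- Fejer measure -/
noncomputable def e1_nu {n : ℕ} (b : (Fin n → ℤ) → ℂ) (N : ℕ) : Measure (UnitAddTorus (Fin n)) :=
  (tor n).withDensity (fun x => ENNReal.ofReal (e1_C b N x).re)

instance e1_tor_prob (n : ℕ) : IsProbabilityMeasure (tor n) := by
  unfold tor; infer_instance

theorem e1_integrable {n : ℕ} {f : UnitAddTorus (Fin n) → ℝ} (hf : Continuous f)
    (μ : Measure (UnitAddTorus (Fin n))) [IsFiniteMeasure μ] : Integrable f μ :=
  (BoundedContinuousFunction.mkOfCompact (⟨f, hf⟩ : C(UnitAddTorus (Fin n), ℝ))).integrable μ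

theorem e1_integrableC {n : ℕ} {f : UnitAddTorus (Fin n) → ℂ} (hf : Continuous f)
    (μ : Measure (UnitAddTorus (Fin n))) [IsFiniteMeasure μ] : Integrable f μ :=
  (BoundedContinuousFunction.mkOfCompact (⟨f, hf⟩ : C(UnitAddTorus (Fin n), ℂ))).integrable μ

theorem e1_nu_fin {n : ℕ} (b : (Fin n → ℤ) → ℂ) (N : ℕ) : IsFiniteMeasure (e1_nu b N) := by
  refine isFiniteMeasure_withDensity_ofReal ?_
  exact (e1_integrable (Complex.continuous_re.comp (e1_C_cont b N)) (tor n)).2

/-- the fraction of the box kept by a translation -/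
noncomputable def e1_w (n N : ℕ) (k : Fin n → ℤ) : ℝ :=
  ((e1_box n N).filter fun m => m + k ∈ e1_box n N).card / (N : ℝ) ^ n

theorem e1_nu_coeff {n : ℕ} {b : (Fin n → ℤ) → ℂ} (hb : ∀ m, b (-m) = conj (b m))
    (hp : ∀ (S : Finset (Fin n → ℤ)) (c : (Fin n → ℤ) → ℂ),
      0 ≤ (∑ m ∈ S, ∑ m' ∈ S, c m * conj (c m') * b (m' - m)).re) (N : ℕ) (k : Fin n → ℤ) :
    ∫ x, mFourier k x ∂(e1_nu b N) = (e1_w n N k : ℂ) * b k := by
  unfold e1_nu
  rw [integral_withDensity_eq_integral_toReal_smul]
  · have h1 : ∀ x : UnitAddTorus (Fin n), (ENNReal.ofReal (e1_C b N x).re).toReal •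
        mFourier k x = ∑ m ∈ e1_box n N, ∑ m' ∈ e1_box n N,
          (b (m' - m) / (N : ℂ) ^ n) * mFourier (m - m' + k) x := by
      intro x
      rw [ENNReal.toReal_ofReal (e1_C_nonneg hp N x), Complex.real_smul, e1_C_re hb N x]
      unfold e1_C
      rw [div_eq_mul_inv, sum_mul, sum_mul]
      refine sum_congr rfl fun j _ => ?_
      rw [sum_mul, sum_mul]
      refine sum_congr rfl fun l _ => ?_
      rw [mFourier_add]
      ring
    simp only [h1]
    have hI : ∀ (c : ℂ) (m : Fin n → ℤ), Integrable (fun t => c * mFourier m t) (tor n) :=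
      fun c m => e1_integrableC (continuous_const.mul (mFourier m).continuous) _
    rw [integral_finsetSum _ fun j _ => integrable_finsetSum _ fun l _ => hI _ _]
    have h2 : ∀ m ∈ e1_box n N, (∫ t, ∑ m' ∈ e1_box n N,
          (b (m' - m) / (N : ℂ) ^ n) * mFourier (m - m' + k) t ∂(tor n)) =
          if m + k ∈ e1_box n N then b k / (N : ℂ) ^ n else 0 := by
      intro m _
      rw [integral_finsetSum _ fun l _ => hI _ _]
      simp only [integral_const_mul, e1_int]
      split_ifs with hk
      · rw [sum_eq_single (m + k)]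
        · rw [if_pos (by abel), mul_one, add_sub_cancel_left]
        · intro l _ hl
          rw [if_neg, mul_zero]
          intro h
          apply hl
          have : m + k - l = 0 := by rw [← h]; abel
          exact (sub_eq_zero.1 this).symm
        · intro h; exact absurd hk h
      · refine sum_eq_zero fun l hl => ?_
        rw [if_neg, mul_zero]
        intro h
        apply hk
        have : m + k - l = 0 := by rw [← h]; abel
        rw [sub_eq_zero.1 this]
        exact hl
    rw [sum_congr rfl h2, ← sum_filter, sum_const, nsmul_eq_mul]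
    unfold e1_w
    push_cast
    ring
  · exact (ENNReal.measurable_ofReal.comp (Complex.continuous_re.comp (e1_C_cont b N)).measurable)
  · exact Filter.Eventually.of_forall fun s => ENNReal.ofReal_lt_top

theorem e1_w_tendsto (n : ℕ) (k : Fin n → ℤ) :
    Tendsto (fun N : ℕ => e1_w n N k) atTop (𝓝 1) := by
  have h1 : ∀ N : ℕ, e1_w n N k = ∏ i : Fin n,
      (((Finset.Ico (0 : ℤ) N).filter fun j => j + k i ∈ Finset.Ico (0 : ℤ) N).card : ℝ) / N := by
    intro N
    unfold e1_w
    rw [prod_div_distrib, prod_const, card_univ, Fintype.card_fin]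
    congr 1
    rw [← Nat.cast_prod, ← Fintype.card_piFinset]
    congr 1
    congr 1
    ext m
    simp only [e1_box, mem_filter, Fintype.mem_piFinset, Pi.add_apply]
    exact forall_and.symm
  simp only [h1]
  rw [show (1 : ℝ) = ∏ _i : Fin n, (1 : ℝ) by simp]
  refine tendsto_finsetProd _ fun i _ => ?_
  have hlow : Tendsto (fun N : ℕ => 1 - |(k i : ℝ)| * (1 / (N : ℝ))) atTop (𝓝 1) := by
    have := (tendsto_one_div_atTop_nhds_zero_nat (𝕜 := ℝ)).const_mul |(k i : ℝ)|
    simpa using this.const_sub 1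
  refine tendsto_of_tendsto_of_tendsto_of_le_of_le' hlow tendsto_const_nhds ?_ ?_
  · filter_upwards [eventually_gt_atTop 0] with N hN
    have hN' : (0 : ℝ) < N := by exact_mod_cast hN
    rw [le_div_iff₀ hN']
    have hsub : Finset.Ico (max 0 (-(k i))) (min (N : ℤ) (N - k i)) ⊆
        (Finset.Ico (0 : ℤ) N).filter fun j => j + k i ∈ Finset.Ico (0 : ℤ) N := by
      intro j hj
      simp only [mem_filter, mem_Ico] at hj ⊢
      omega
    have hc := card_le_card hsub
    rw [Int.card_Ico] at hc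
    have hc2 : (N : ℤ) - |k i| ≤
        (((Finset.Ico (0 : ℤ) N).filter fun j => j + k i ∈ Finset.Ico (0 : ℤ) N).card : ℤ) := by
      rcases abs_cases (k i) with h | h <;> omega
    have hc3 : (N : ℝ) - |(k i : ℝ)| ≤
        (((Finset.Ico (0 : ℤ) N).filter fun j => j + k i ∈ Finset.Ico (0 : ℤ) N).card : ℝ) := by
      exact_mod_cast hc2
    have : (1 - |(k i : ℝ)| * (1 / (N : ℝ))) * N = N - |(k i : ℝ)| := by
      field_simp
    linarith
  · filter_upwards [eventually_gt_atTop 0] with N hN
    have hN' : (0 : ℝ) < N := by exact_mod_cast hN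
    rw [div_le_one hN']
    have hc := card_le_card (filter_subset (fun j => j + k i ∈ Finset.Ico (0 : ℤ) N)
      (Finset.Ico (0 : ℤ) N))
    rw [Int.card_Ico] at hc
    simp only [sub_zero, Int.toNat_natCast] at hc
    exact_mod_cast hc

theorem st_E1 : ST_E1 := by
  intro n b hb hp h0
  set F : ℕ → FiniteMeasure (UnitAddTorus (Fin n)) := fun N =>
    ⟨e1_nu b N, e1_nu_fin b N⟩ with hF
  have hw : ∀ N, e1_w n N 0 ≤ 1 := by
    intro N
    unfold e1_w
    refine div_le_one_of_le₀ ?_ (by positivity)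
    rw [← e1_card]
    exact_mod_cast card_le_card (filter_subset _ _)
  have hw0 : ∀ N, 0 ≤ e1_w n N 0 := fun N => by unfold e1_w; positivity
  have hmass : ∀ N, (F N).mass ≤ 1 := by
    intro N
    have h1 := e1_nu_coeff hb hp N 0
    have hfinN := e1_nu_fin b N
    rw [h0, mul_one, mFourier_zero] at h1
    simp only [ContinuousMap.one_apply] at h1
    rw [integral_const] at h1
    have h2 : ‖(e1_nu b N).real Set.univ • (1 : ℂ)‖ ≤ 1 := by
      rw [h1, Complex.norm_real, Real.norm_of_nonneg (hw0 N)]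
      exact hw N
    have h3 : ‖(e1_nu b N).real Set.univ • (1 : ℂ)‖ = ((F N).mass : ℝ) := by
      rw [norm_smul, norm_one, mul_one, Real.norm_of_nonneg measureReal_nonneg]
      rfl
    rw [h3] at h2
    exact_mod_cast h2
  have hcomp := isCompact_setOfPred_finiteMeasure_le_of_compactSpace (UnitAddTorus (Fin n)) 1
  obtain ⟨ν, hν1, hν2⟩ := hcomp.ultrafilter_le_nhds ((Filter.hyperfilter ℕ).map F) (by
    rw [le_principal_iff]
    exact Filter.Eventually.of_forall (f := (Filter.hyperfilter ℕ : Filter ℕ)) hmass)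
  have hν3 : Tendsto F (Filter.hyperfilter ℕ) (𝓝 ν) := hν2
  rw [FiniteMeasure.tendsto_iff_forall_integral_rclike_tendsto ℂ] at hν3
  have hcoef : ∀ m, ∫ x, mFourier m x ∂(ν : Measure (UnitAddTorus (Fin n))) = b m := by
    intro m
    have h4 := hν3 (BoundedContinuousFunction.mkOfCompact (mFourier m))
    simp only [BoundedContinuousFunction.mkOfCompact_apply] at h4
    have h5 : Tendsto (fun N : ℕ => ∫ t, mFourier m t ∂(e1_nu b N)) atTop (𝓝 (b m)) := by
      simp only [e1_nu_coeff hb hp]
      have h6 := (Complex.continuous_ofReal.tendsto (1 : ℝ)).comp (e1_w_tendsto n m)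
      simpa [Function.comp_def] using h6.mul_const (b m)
    exact tendsto_nhds_unique h4 (h5.mono_left (Nat.hyperfilter_le_atTop))
  refine ⟨ν, ⟨?_⟩, hcoef⟩
  have h7 := hcoef 0
  rw [h0, mFourier_zero] at h7
  simp only [ContinuousMap.one_apply] at h7
  rw [integral_const, Complex.real_smul, mul_one] at h7
  have h8 : (ν : Measure (UnitAddTorus (Fin n))).real Set.univ = 1 := by exact_mod_cast h7
  rw [measureReal_def, ENNReal.toReal_eq_one_iff] at h8
  exact h8

end Pool.Agent.Helper97.FS
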