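import Pool.Agent.Helper97.FS.Stmts

set_option autoImplicit false

/-!
# FS, module WW2: upper bound of the smoothed energy by window sums
-/

namespace Pool.Agent.Helper97.FS

open Finset MeasureTheory Filter Topology
open scoped ComplexConjugate

/-- window energy -/
noncomputable def ww2_F (ℓ : ℕ) (p : ℕ → ℝ) (z : ℕ → ℂ) (s x : ℝ) : ℝ :=
  ‖∑ i ∈ range ℓ, if x ≤ p i ∧ p i < x + s then z i else 0‖ ^ 2

theorem ww2_meas (ℓ : ℕ) (p : ℕ → ℝ) (z : ℕ → ℂ) :
    Measurable (fun q : ℝ × ℝ => ww2_F ℓ p z q.1 q.2) := by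
  unfold ww2_F
  refine Measurable.pow_const (Measurable.norm (Finset.measurable_fun_sum _ fun i _ => ?_)) 2
  refine Measurable.ite ?_ measurable_const measurable_const
  exact (measurableSet_le measurable_snd measurable_const).inter
    (measurableSet_lt measurable_const (measurable_snd.add measurable_fst))

theorem ww2_nonneg (ℓ : ℕ) (p : ℕ → ℝ) (z : ℕ → ℂ) (s x : ℝ) : 0 ≤ ww2_F ℓ p z s x := by
  unfold ww2_F; positivity

/-- a window sees an interval of indices -/
theorem ww2_window (ℓ : ℕ) (p : ℕ → ℝ) (hp : ∀ i < ℓ, p i ≤ p (i + 1)) (s x : ℝ) :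
    ∃ i i' : ℕ, i ≤ i' ∧ i' ≤ ℓ ∧ (i < i' → p (i' - 1) - p i < s) ∧
      (range ℓ).filter (fun i => x ≤ p i ∧ p i < x + s) = Ico i i' := by
  classical
  have hmono : ∀ i j, i ≤ j → j ≤ ℓ → p i ≤ p j := by
    intro i j hij
    induction j, hij using Nat.le_induction with
    | base => intro _; exact le_rfl
    | succ j hj ih => intro h; exact (ih (by omega)).trans (hp j (by omega))
  set A := (range ℓ).filter (fun i => x ≤ p i ∧ p i < x + s) with hA
  rcases A.eq_empty_or_nonempty with h | h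
  · exact ⟨0, 0, le_rfl, Nat.zero_le _, fun h => absurd h (lt_irrefl _), by rw [h]; simp⟩
  · have h1 := A.min'_mem h
    have h2 := A.max'_mem h
    set u := A.min' h with hu
    set w := A.max' h with hw
    have huw : u ≤ w := A.min'_le _ h2
    rw [hA, mem_filter, mem_range] at h1 h2
    refine ⟨u, w + 1, by omega, by omega, ?_, ?_⟩
    · intro _
      rw [Nat.add_sub_cancel]
      linarith [h1.2.1, h2.2.2]
    · ext j
      rw [mem_Ico]
      constructor
      · intro hj
        exact ⟨A.min'_le _ hj, Nat.lt_succ_of_le (A.le_max' _ hj)⟩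
      · intro hj
        rw [hA, mem_filter, mem_range]
        have hj2 : j ≤ w := by omega
        exact ⟨by omega, h1.2.1.trans (hmono u j hj.1 (by omega)),
          (hmono j w hj2 (by omega)).trans_lt h2.2.2⟩

theorem ww2_le {d ℓ : ℕ} {p : ℕ → ℝ} {z : Fin d → ℕ → ℂ} {t Mx : ℝ}
    (hp : ∀ i < ℓ, p i ≤ p (i + 1))
    (hM : ∀ i i' : ℕ, i ≤ i' → i' ≤ ℓ → (i < i' → p (i' - 1) - p i < t) →
      ∑ c, ‖∑ r ∈ Ico i i', z c r‖ ^ 2 ≤ Mx) {s : ℝ} (hs : s ≤ t) (x : ℝ) :
    ∑ c, ww2_F ℓ p (z c) s x ≤ (Set.Icc (p 0 - t) (p ℓ)).indicator (fun _ => Mx) x := by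
  obtain ⟨i, i', h1, h2, h3, h4⟩ := ww2_window ℓ p hp s x
  have hmono : ∀ i j, i ≤ j → j ≤ ℓ → p i ≤ p j := by
    intro i j hij
    induction j, hij using Nat.le_induction with
    | base => intro _; exact le_rfl
    | succ j hj ih => intro h; exact (ih (by omega)).trans (hp j (by omega))
  have h5 : ∀ c, ww2_F ℓ p (z c) s x = ‖∑ r ∈ Ico i i', z c r‖ ^ 2 := by
    intro c
    unfold ww2_F
    rw [← sum_filter, h4]
  rw [Finset.sum_congr rfl fun c _ => h5 c]
  by_cases hx : x ∈ Set.Icc (p 0 - t) (p ℓ)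
  · rw [Set.indicator_of_mem hx]
    exact hM i i' h1 h2 fun h => (h3 h).trans_le hs
  · rw [Set.indicator_of_notMem hx]
    have hem : Ico i i' = ∅ := by
      rw [← h4]
      refine filter_eq_empty_iff.2 ?_
      intro j hj hj2
      rw [mem_range] at hj
      apply hx
      have h6 := hmono 0 j (Nat.zero_le _) hj.le
      have h7 := hmono j ℓ hj.le le_rfl
      exact ⟨by linarith [hj2.2], by linarith [hj2.1]⟩
    rw [hem]
    simp

theorem st_WW2 (hW : ST_WW) : ST_WW2 := by
  intro d ℓ p z t Mx ht hp hM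
  have hM0 : 0 ≤ Mx := by
    have := hM 0 0 le_rfl (Nat.zero_le _) fun h => absurd h (lt_irrefl _)
    simpa using this
  set J := Set.Icc (p 0 - t) (p ℓ) with hJ
  have hle := fun {s : ℝ} (hs : s ≤ t) (x : ℝ) => ww2_le hp hM hs x
  have hle1 : ∀ c, ∀ s ≤ t, ∀ x, ww2_F ℓ p (z c) s x ≤ J.indicator (fun _ => Mx) x := by
    intro c s hs x
    refine le_trans ?_ (hle hs x)
    exact single_le_sum (f := fun c => ww2_F ℓ p (z c) s x) (fun c _ => ww2_nonneg _ _ _ _ _)
      (mem_univ c)
  have hind : Integrable (J.indicator (fun _ => Mx)) volume := by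
    rw [integrable_indicator_iff measurableSet_Icc]
    exact integrableOn_const (by rw [Real.volume_Icc]; exact ENNReal.ofReal_ne_top)
  have hint1 : ∀ c, ∀ s ≤ t, Integrable (fun x => ww2_F ℓ p (z c) s x) := by
    intro c s hs
    refine Integrable.mono' hind ?_ ?_
    · exact ((ww2_meas ℓ p (z c)).comp (measurable_const.prodMk measurable_id)).aestronglyMeasurable
    · refine Filter.Eventually.of_forall fun x => ?_
      rw [Real.norm_of_nonneg (ww2_nonneg _ _ _ _ _)]
      exact hle1 c s hs x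
  have hint2 : ∀ c, IntervalIntegrable (fun s => ∫ x, ww2_F ℓ p (z c) s x) volume 0 t := by
    intro c
    rw [intervalIntegrable_iff_integrableOn_Ioc_of_le ht.le]
    have hg : Integrable (fun q : ℝ × ℝ => ww2_F ℓ p (z c) q.1 q.2)
        ((volume.restrict (Set.Ioc 0 t)).prod volume) := by
      have h0 : Integrable (fun q : ℝ × ℝ => J.indicator (fun _ => Mx) q.2)
          ((volume.restrict (Set.Ioc 0 t)).prod volume) := hind.comp_snd _
      refine Integrable.mono' h0 (ww2_meas ℓ p (z c)).aestronglyMeasurable ?_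
      have h1 : ∀ᵐ q : ℝ × ℝ ∂((volume.restrict (Set.Ioc 0 t)).prod volume),
          q.1 ∈ Set.Ioc 0 t :=
        Measure.quasiMeasurePreserving_fst.ae (ae_restrict_mem measurableSet_Ioc)
      filter_upwards [h1] with q hq
      rw [Real.norm_of_nonneg (ww2_nonneg _ _ _ _ _)]
      exact hle1 c q.1 hq.2 q.2
    exact hg.integral_prod_left
  have hB : ∀ s, s ≤ t → ∑ c, ∫ x, ww2_F ℓ p (z c) s x ≤ |p ℓ - p 0 + t| * Mx := by
    intro s hs
    rw [← integral_finsetSum _ fun c _ => hint1 c s hs]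
    refine (integral_mono (integrable_finsetSum _ fun c _ => hint1 c s hs) hind
      (hle hs)).trans ?_
    rw [integral_indicator_const _ measurableSet_Icc, measureReal_def, Real.volume_Icc,
      smul_eq_mul]
    refine mul_le_mul_of_nonneg_right ?_ hM0
    rw [ENNReal.toReal_ofReal']
    refine max_le ?_ (abs_nonneg _)
    exact (le_abs_self _).trans (le_of_eq (by ring_nf))
  have hmono : ∀ i j, i ≤ j → j ≤ ℓ → p i ≤ p j := by
    intro i j hij
    induction j, hij using Nat.le_induction with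
    | base => intro _; exact le_rfl
    | succ j hj ih => intro h; exact (ih (by omega)).trans (hp j (by omega))
  have habs : |p ℓ - p 0 + t| = p ℓ - p 0 + t :=
    abs_of_nonneg (by linarith [hmono 0 ℓ (Nat.zero_le _) le_rfl])
  rw [habs] at hB
  calc (t ^ 2 / 2) * ∑ c, ∑ i ∈ range ℓ, ∑ i' ∈ range ℓ,
        (z c i * conj (z c i')).re * ww ((p i - p i') / t)
      = ∑ c, ∫ s in (0 : ℝ)..t, ∫ x : ℝ, ww2_F ℓ p (z c) s x := by
        rw [mul_sum]
        exact sum_congr rfl fun c _ => hW ℓ p (z c) t ht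
    _ = ∫ s in (0 : ℝ)..t, ∑ c, ∫ x : ℝ, ww2_F ℓ p (z c) s x := by
        rw [intervalIntegral.integral_finsetSum fun c _ => hint2 c]
    _ ≤ ∫ _s in (0 : ℝ)..t, (p ℓ - p 0 + t) * Mx := by
        refine intervalIntegral.integral_mono_on ht.le ?_ (by simp) ?_
        · have := IntervalIntegrable.sum (μ := volume) (a := 0) (b := t) Finset.univ
            (f := fun c s => ∫ x, ww2_F ℓ p (z c) s x) fun c _ => hint2 c
          convert! this using 1
          funext s
          rw [Finset.sum_apply]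
        · intro s hs
          exact hB s hs.2
    _ = t * (p ℓ - p 0 + t) * Mx := by
        rw [intervalIntegral.integral_const, smul_eq_mul, sub_zero]
        ring

end Pool.Agent.Helper97.FS
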